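import Pool.Agent.Helper11.LE.Goals3

/-!
# Project LE: `F_INF`
-/

namespace Pool.Agent.Helper85.LE

open NumberField Polynomial Module IsDedekindDomain TensorProduct Pool.Agent.Helper51.SigLeo
open Pool.Agent.Helper51.RP Pool.Agent.Helper42.RD Pool.Agent.Helper11.LE

/-- The common part: `K₁`, `ε` with `Cyc`, an embedding `j`, and the descent step. -/
theorem f_core (h2 : L_INI) (h5 : L_END) (h6 : F_GOO) (h7 : F_CNT)
    (p : ℕ) [Fact p.Prime] (k : Type) [NormedField k] [NormedAlgebra ℚ_[p] k]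
    [IsUltrametricDist k] [CompleteSpace k] (hne : Nonempty (AlgebraicClosure ℚ →+* k))
    (L : IwasawaLog p k) (K K₁ : Type) [Field K] [NumberField K] [Field K₁] [NumberField K₁]
    [Algebra K K₁] (ε : K₁) (hcyc : Cyc p K K₁ ε) (T : Set (K →+* k)) (hT : PlaceClosed T)
    (j : K₁ →+* AlgebraicClosure K)
    (hj : ∀ x : K, j (algebraMap K K₁ x) = algebraMap K (AlgebraicClosure K) x)
    (hst : ∀ (R : Set (HeightOneSpectrum (𝓞 K))) (al : HeightOneSpectrum (𝓞 K) → K) (a : 𝓞 K₁),
      St p ε R al a → R.Nonempty → ¬ Good L T R al a → Stp (K₁ := K₁) L ε T R al) :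
    {N : IntermediateField K (AlgebraicClosure K) | finrank K N = p ∧ IsGalois K N ∧
      NGood L T N}.Infinite := by
  refine h7 p K K₁ ε hcyc j hj (fun N ↦ NGood L T N) ?_
  intro Z hZ
  obtain ⟨R, al, a, hS, w, hwR, hwZ⟩ := h2 p K K₁ ε hcyc Z hZ
  obtain ⟨R', al', a', hS', hw', hG⟩ := h5 p k L K K₁ ε T hst w ⟨R, al, a, hS, hwR⟩
  obtain ⟨W, hW, hWd, -⟩ := hS'.mat.ram w hw'
  refine ⟨a', hS'.ne, hS'.om, ⟨W, w, hW, hwZ, hWd⟩, ?_⟩
  intro s hs hsK N hN hG' hg
  exact h6 p k hne L K K₁ ε hcyc T hT R' al' a' hS' hG j hj s hs hsK N hN hG' hg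

theorem f_inf (h1 : L_CYC) (h2 : L_INI) (h3 : L_ST1) (h4 : L_ST2) (h5 : L_END) (h6 : F_GOO)
    (h7 : F_CNT) : Pool.Agent.Helper11.LE.F_INF := by
  intro p _ hp2 k _ _ _ _ hne L K _ _ T hT hcard
  by_cases hξ : ∃ ξ : K, IsPrimitiveRoot ξ p
  · obtain ⟨ξ, hξ⟩ := hξ
    have hcyc : Cyc p K K ξ := by
      refine ⟨hξ, inferInstance, ?_⟩
      intro σ _
      ext x
      simpa using σ.commutes x
    refine f_core h2 h5 h6 h7 p k hne L K K ξ hcyc T hT (algebraMap K (AlgebraicClosure K))
      (fun x ↦ rfl) ?_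
    intro R al a hS hR hG
    exact h3 p hp2 k hne L K ξ hξ T hcard R al a hS hR hG
  · have : NeZero (p : AlgebraicClosure K) := ⟨by
      have := (Fact.out : p.Prime).ne_zero
      exact_mod_cast this⟩
    obtain ⟨ζ, hζ⟩ := HasEnoughRootsOfUnity.exists_primitiveRoot (AlgebraicClosure K) p
    let K₁ : IntermediateField K (AlgebraicClosure K) := IntermediateField.adjoin K {ζ}
    have hint : IsIntegral K ζ := Algebra.IsIntegral.isIntegral ζ
    have : FiniteDimensional K K₁ := IntermediateField.adjoin.finiteDimensional hint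
    have : NumberField K₁ := NumberField.of_module_finite K K₁
    have : IsCyclotomicExtension {p} K K₁ := hζ.intermediateField_adjoin_isCyclotomicExtension K
    have : IsGalois K K₁ := IsCyclotomicExtension.isGalois {p} K K₁
    let ε : K₁ := ⟨ζ, IntermediateField.mem_adjoin_simple_self K ζ⟩
    have hε : IsPrimitiveRoot ε p := by
      refine IsPrimitiveRoot.of_map_of_injective (f := algebraMap K₁ (AlgebraicClosure K)) ?_
        (algebraMap K₁ (AlgebraicClosure K)).injective
      exact hζ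
    have hcyc : Cyc p K K₁ ε := by
      refine ⟨hε, inferInstance, ?_⟩
      intro σ hσ
      have h1 : (σ : K₁ →ₐ[K] K₁) = AlgHom.id K K₁ := by
        refine IntermediateField.algHom_ext_of_eq_adjoin K (S := K₁) (s := ({ζ} : Set _)) rfl ?_
        intro x hx
        have hx' : x = ζ := hx
        subst hx'
        exact hσ
      ext x
      have := congrArg (fun f ↦ f x) h1
      simpa using congrArg Subtype.val this
    have hfin : 1 < finrank K K₁ := by
      have h0 : 0 < finrank K K₁ := finrank_pos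
      have h1' := (h1 p K K₁ ε hcyc).2.2.1
      rcases Nat.lt_or_ge 1 (finrank K K₁) with h | h
      · exact h
      · exact absurd (h1'.1 (le_antisymm h h0)) hξ
    refine f_core h2 h5 h6 h7 p k hne L K K₁ ε hcyc T hT (algebraMap K₁ (AlgebraicClosure K))
      (fun x ↦ rfl) ?_
    intro R al a hS hR hG
    exact h4 p hp2 k hne L K K₁ ε hcyc hfin T hcard R al a hS hG

end Pool.Agent.Helper85.LE
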